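import Pool.Agent.N311.SH.Stm

/-!
# Project SH (helper311): EXT, the extended pair of homeomorphisms of the closed disc (helper767)
-/

set_option autoImplicit false

open Set Metric Filter Topology

namespace Pool.Agent.N767.SH

open Pool.Agent.N311.SH

theorem ext_pair (h1 : S_C1) (h2 : S_C2) : S_EXT := by
  intro f φ ψ hB
  have hcl : closure (ball (0 : ℂ) 1) = closedBall 0 1 := closure_ball 0 one_ne_zero
  have cU : ContinuousOn (fun z => ψ (f z)) (ball (0 : ℂ) 1) :=
    hB.dψ.continuousOn.comp f.continuous.continuousOn (mapsTo_image _ _)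
  have cV : ContinuousOn (fun z => f.symm (φ z)) (ball (0 : ℂ) 1) :=
    f.symm.continuous.comp_continuousOn hB.dφ.continuousOn
  have mU : ∀ z ∈ ball (0 : ℂ) 1, ψ (f z) ∈ ball (0 : ℂ) 1 := fun z hz =>
    hB.mψ (mem_image_of_mem _ hz)
  have mV : ∀ z ∈ ball (0 : ℂ) 1, f.symm (φ z) ∈ ball (0 : ℂ) 1 := fun z hz => by
    obtain ⟨x, hx, hxe⟩ := hB.mφ hz
    rw [← hxe, f.symm_apply_apply]
    exact hx
  have VU : ∀ z ∈ ball (0 : ℂ) 1, f.symm (φ (ψ (f z))) = z := fun z hz => by
    rw [hB.right _ (mem_image_of_mem _ hz), f.symm_apply_apply]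
  have UV : ∀ z ∈ ball (0 : ℂ) 1, ψ (f (f.symm (φ z))) = z := fun z hz => by
    rw [f.apply_symm_apply, hB.left z hz]
  set u : ℂ → ℂ := extendFrom (ball (0 : ℂ) 1) (fun z => ψ (f z)) with hu
  set v : ℂ → ℂ := extendFrom (ball (0 : ℂ) 1) (fun z => f.symm (φ z)) with hv
  have hub : ∀ z ∈ ball (0 : ℂ) 1, u z = ψ (f z) := fun z hz => extendFrom_extends cU z hz
  have hvb : ∀ z ∈ ball (0 : ℂ) 1, v z = f.symm (φ z) := fun z hz => extendFrom_extends cV z hz
  have hcu : ContinuousOn u (closedBall 0 1) := by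
    apply continuousOn_extendFrom hcl.ge
    intro x hx
    rcases lt_or_eq_of_le (mem_closedBall_zero_iff.1 hx) with h | h
    · exact ⟨_, (cU x (mem_ball_zero_iff.2 h))⟩
    · exact h2 f φ ψ hB x h
  have hcv : ContinuousOn v (closedBall 0 1) := by
    apply continuousOn_extendFrom hcl.ge
    intro x hx
    rcases lt_or_eq_of_le (mem_closedBall_zero_iff.1 hx) with h | h
    · exact ⟨_, (cV x (mem_ball_zero_iff.2 h))⟩
    · exact h1 f φ ψ hB x h
  have hmu : MapsTo u (closedBall (0 : ℂ) 1) (closedBall 0 1) := by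
    have h : MapsTo u (ball (0 : ℂ) 1) (ball 0 1) := fun z hz => by
      rw [hub z hz]; exact mU z hz
    have h' := h.closure_of_continuousOn (by rw [hcl]; exact hcu)
    rwa [hcl] at h'
  have hmv : MapsTo v (closedBall (0 : ℂ) 1) (closedBall 0 1) := by
    have h : MapsTo v (ball (0 : ℂ) 1) (ball 0 1) := fun z hz => by
      rw [hvb z hz]; exact mV z hz
    have h' := h.closure_of_continuousOn (by rw [hcl]; exact hcv)
    rwa [hcl] at h'
  have hvu : EqOn (fun z => v (u z)) (fun z => z) (closedBall (0 : ℂ) 1) := by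
    refine EqOn.of_subset_closure (s := ball (0 : ℂ) 1) ?_ (hcv.comp hcu hmu) continuousOn_id
      ball_subset_closedBall hcl.ge
    intro z hz
    show v (u z) = z
    rw [hub z hz, hvb _ (mU z hz), VU z hz]
  have huv : EqOn (fun z => u (v z)) (fun z => z) (closedBall (0 : ℂ) 1) := by
    refine EqOn.of_subset_closure (s := ball (0 : ℂ) 1) ?_ (hcu.comp hcv hmv) continuousOn_id
      ball_subset_closedBall hcl.ge
    intro z hz
    show u (v z) = z
    rw [hvb z hz, hub _ (mV z hz), UV z hz]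
  refine ⟨u, v, hcu, hcv, fun z hz => ?_, fun z hz => ?_⟩
  · have hz' : z ∈ closedBall (0 : ℂ) 1 := mem_closedBall_zero_iff.2 hz
    exact ⟨mem_closedBall_zero_iff.1 (hmu hz'), mem_closedBall_zero_iff.1 (hmv hz'), hvu hz',
      huv hz'⟩
  · have hz' : z ∈ ball (0 : ℂ) 1 := mem_ball_zero_iff.2 hz
    refine ⟨?_, ?_, ?_⟩
    · rw [hub z hz']; exact mem_ball_zero_iff.1 (mU z hz')
    · rw [hvb z hz']; exact mem_ball_zero_iff.1 (mV z hz')
    · rw [hub z hz', hB.right _ (mem_image_of_mem _ hz')]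

end Pool.Agent.N767.SH
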